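import Mathlib

namespace Pool.Agent.Results.MP_cfa423_co.PeriodicPoints231213

/-- Two sequences of the same length whose entries are in the same relative order. -/
def SameOrder (l σ : List ℕ) : Prop :=
  ∃ h : l.length = σ.length, ∀ i j : Fin l.length,
    (l.get i < l.get j ↔ σ.get (Fin.cast h i) < σ.get (Fin.cast h j))

/-- The sequence `l` avoids all patterns in `T`: no subsequence of `l` is in the same relative
order as a member of `T`. -/
def Avoids (T : Set (List ℕ)) (l : List ℕ) : Prop :=
  ∀ σ ∈ T, ∀ τ : List ℕ, τ.Sublist l → ¬ SameOrder τ σ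

open Classical in
/-- Entries are popped from the stack (a list read from top to bottom) until the next input entry
`a` can be pushed, and then `a` is pushed: the popped entries, in this order, and the new stack. -/
noncomputable def push (T : Set (List ℕ)) (a : ℕ) : List ℕ → List ℕ × List ℕ
  | [] => ([], [a])
  | b :: st =>
    if Avoids T (a :: b :: st) then ([], a :: b :: st)
    else (b :: (push T a st).1, (push T a st).2)

/-- The output of the machine with the remaining input and the present stack. -/
noncomputable def run (T : Set (List ℕ)) : List ℕ → List ℕ → List ℕ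
  | [], st => st
  | a :: input, st => (push T a st).1 ++ run T input (push T a st).2

/-- The stack-sorting map `s_T`. -/
noncomputable def s (T : Set (List ℕ)) (p : List ℕ) : List ℕ := run T p []

/-- The set of patterns `{231, 213}`. -/
def T₀ : Set (List ℕ) := {[2, 3, 1], [2, 1, 3]}

/-! ### avoidance -/

lemma avoids_of_sublist {T : Set (List ℕ)} {l l' : List ℕ} (h : l.Sublist l') (h' : Avoids T l') :
    Avoids T l := fun σ hσ τ hτ => h' σ hσ τ (hτ.trans h)

lemma sameOrder_length {l σ : List ℕ} (h : SameOrder l σ) : l.length = σ.length := h.1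

lemma sameOrder_231 {x y z : ℕ} : SameOrder [x, y, z] [2, 3, 1] ↔ z < x ∧ x < y := by
  constructor
  · rintro ⟨_, h⟩
    have h1 := (h ⟨2, by simp⟩ ⟨0, by simp⟩).2 (by simp)
    have h2 := (h ⟨0, by simp⟩ ⟨1, by simp⟩).2 (by simp)
    simp at h1 h2
    exact ⟨h1, h2⟩
  · rintro ⟨h1, h2⟩
    refine ⟨rfl, fun i j => ?_⟩
    fin_cases i <;> fin_cases j <;> simp <;> omega

lemma sameOrder_213 {x y z : ℕ} : SameOrder [x, y, z] [2, 1, 3] ↔ y < x ∧ x < z := by
  constructor
  · rintro ⟨_, h⟩
    have h1 := (h ⟨1, by simp⟩ ⟨0, by simp⟩).2 (by simp)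
    have h2 := (h ⟨0, by simp⟩ ⟨2, by simp⟩).2 (by simp)
    simp at h1 h2
    exact ⟨h1, h2⟩
  · rintro ⟨h1, h2⟩
    refine ⟨rfl, fun i j => ?_⟩
    fin_cases i <;> fin_cases j <;> simp <;> omega

/-- The stack condition for `{231, 213}`: no entry is strictly between two entries below it. -/
lemma avoids_T₀ {l : List ℕ} :
    Avoids T₀ l ↔ ∀ x y z, [x, y, z].Sublist l → ¬ (z < x ∧ x < y) ∧ ¬ (y < x ∧ x < z) := by
  constructor
  · intro h x y z hs
    refine ⟨fun h' => ?_, fun h' => ?_⟩
    · exact h [2, 3, 1] (by simp [T₀]) [x, y, z] hs (sameOrder_231.2 h')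
    · exact h [2, 1, 3] (by simp [T₀]) [x, y, z] hs (sameOrder_213.2 h')
  · intro h σ hσ τ hτ hso
    have hlen : τ.length = 3 := by
      rw [sameOrder_length hso]
      rcases hσ with rfl | hσ
      · rfl
      · rw [Set.mem_singleton_iff.1 hσ]; rfl
    obtain ⟨x, y, z, rfl⟩ := List.length_eq_three.1 hlen
    have h' := h x y z hτ
    rcases hσ with rfl | hσ
    · exact h'.1 (sameOrder_231.1 hso)
    · rw [Set.mem_singleton_iff.1 hσ] at hso
      exact h'.2 (sameOrder_213.1 hso)

/-- `a` is larger than all members of `l`, or smaller than all members of `l`. -/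
def Ext (a : ℕ) (l : List ℕ) : Prop := (∀ y ∈ l, a < y) ∨ ∀ y ∈ l, y < a

lemma avoids_cons {a : ℕ} {l : List ℕ} (h : Avoids T₀ l) (ha : Ext a l) : Avoids T₀ (a :: l) := by
  rw [avoids_T₀] at h ⊢
  intro x y z hs
  rcases List.sublist_cons_iff.1 hs with hs | ⟨r, hr, hs⟩
  · exact h x y z hs
  · obtain ⟨rfl, rfl⟩ := List.cons.inj hr
    have hy : y ∈ l := hs.subset (by simp)
    have hz : z ∈ l := hs.subset (by simp)
    rcases ha with ha | ha
    · have := ha y hy
      have := ha z hz
      omega
    · have := ha y hy
      have := ha z hz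
      omega

lemma ext_of_avoids {a : ℕ} {l : List ℕ} (h : Avoids T₀ (a :: l)) (ha : a ∉ l) : Ext a l := by
  rw [avoids_T₀] at h
  by_contra hne
  unfold Ext at hne
  push Not at hne
  obtain ⟨⟨y, hy, hya⟩, z, hz, hza⟩ := hne
  have hya' : y < a := lt_of_le_of_ne hya (fun e => ha (e ▸ hy))
  have hza' : a < z := lt_of_le_of_ne hza (fun e => ha (e ▸ hz))
  have hyz : y ≠ z := by omega
  -- the positions of `y` and `z` in `l`
  have key : [y, z].Sublist l ∨ [z, y].Sublist l := by
    obtain ⟨A, B, rfl⟩ := List.append_of_mem hy
    rcases List.mem_append.1 hz with hz | hz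
    · right
      have h1 : [z].Sublist A := List.singleton_sublist.2 hz
      have h2 : [y].Sublist (y :: B) := List.singleton_sublist.2 (by simp)
      simpa using h1.append h2
    · left
      have hzB : z ∈ B := by
        rcases List.mem_cons.1 hz with e | h'
        · exact absurd e.symm hyz
        · exact h'
      have h1 : [z].Sublist B := List.singleton_sublist.2 hzB
      exact (h1.cons_cons y).trans (List.sublist_append_right A (y :: B))
  rcases key with key | key
  · exact (h a y z (key.cons_cons a)).2 ⟨hya', hza'⟩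
  · exact (h a z y (key.cons_cons a)).1 ⟨hya', hza'⟩

/-! ### the machine -/

lemma push_perm (T : Set (List ℕ)) (a : ℕ) (st : List ℕ) :
    ((push T a st).1 ++ (push T a st).2).Perm (a :: st) := by
  induction st with
  | nil => simp [push]
  | cons b st ih =>
    unfold push
    split_ifs with h
    · simp
    · simp only [List.cons_append]
      exact (ih.cons b).trans (List.Perm.swap a b st)

lemma run_perm (T : Set (List ℕ)) (p st : List ℕ) : (run T p st).Perm (p ++ st) := by
  induction p generalizing st with
  | nil => simp [run]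
  | cons a p ih =>
    simp only [run, List.cons_append]
    have h1 := ih (push T a st).2
    have h2 := push_perm T a st
    have h3 : ((push T a st).1 ++ run T p (push T a st).2).Perm
        ((push T a st).1 ++ (p ++ (push T a st).2)) := h1.append_left _
    refine h3.trans ?_
    have h4 : ((push T a st).1 ++ (p ++ (push T a st).2)).Perm
        (p ++ ((push T a st).1 ++ (push T a st).2)) := by
      rw [← List.append_assoc, ← List.append_assoc]
      exact List.Perm.append_right _ List.perm_append_comm
    refine h4.trans ?_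
    refine (h2.append_left p).trans ?_
    exact List.perm_middle

lemma s_perm (T : Set (List ℕ)) (p : List ℕ) : (s T p).Perm p := by
  simpa [s] using run_perm T p []

/-- The new stack is `a` on top of a final segment of the old stack. -/
lemma push_spec (T : Set (List ℕ)) (a : ℕ) (st : List ℕ) :
    ∃ D, (push T a st).2 = a :: D ∧ st = (push T a st).1 ++ D := by
  induction st with
  | nil => exact ⟨[], by simp [push], by simp [push]⟩
  | cons b st ih =>
    unfold push
    split_ifs with h
    · exact ⟨b :: st, rfl, rfl⟩
    · obtain ⟨D, h1, h2⟩ := ih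
      exact ⟨D, h1, by simp only [List.cons_append]; rw [← h2]⟩

lemma avoids_singleton (a : ℕ) : Avoids T₀ [a] := by
  rw [avoids_T₀]
  intro x y z hs
  have := hs.length_le
  simp at this

lemma push_avoids (a : ℕ) (st : List ℕ) : Avoids T₀ (push T₀ a st).2 := by
  induction st with
  | nil => simpa [push] using avoids_singleton a
  | cons b st ih =>
    unfold push
    split_ifs with h
    · exact h
    · exact ih

/-- Nothing is popped below an entry `x` on which `a` can be pushed. -/
lemma push_keep {a x : ℕ} {C D : List ℕ} (h : Avoids T₀ (a :: x :: D)) :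
    ∃ C₁ C₂, C = C₁ ++ C₂ ∧ push T₀ a (C ++ x :: D) = (C₁, a :: (C₂ ++ x :: D)) := by
  induction C with
  | nil =>
    refine ⟨[], [], rfl, ?_⟩
    simp only [List.nil_append]
    unfold push
    rw [if_pos h]
  | cons b C ih =>
    obtain ⟨C₁, C₂, h1, h2⟩ := ih
    simp only [List.cons_append]
    unfold push
    split_ifs with h3
    · exact ⟨[], b :: C, rfl, by simp⟩
    · exact ⟨b :: C₁, C₂, by simp [h1], by rw [h2]⟩

/-- `x` is larger than all later entries or smaller than all later entries. -/
def Good (x : ℕ) (l : List ℕ) : Prop := ∃ l₁ l₂, l = l₁ ++ x :: l₂ ∧ Ext x l₂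

lemma Good.append {x : ℕ} {l : List ℕ} (h : Good x l) (l' : List ℕ) : Good x (l' ++ l) := by
  obtain ⟨l₁, l₂, rfl, h⟩ := h
  exact ⟨l' ++ l₁, l₂, by simp, h⟩

/-- `x` is smaller (`R` is `<`) or larger (`R` is `>`) than everything below it in the stack and
than the rest of the input. -/
lemma good_same (R : ℕ → ℕ → Prop) (hR : R = (· < ·) ∨ R = (· > ·)) {x : ℕ} (B C D : List ℕ)
    (hD : ∀ y ∈ D, R x y) (hB : ∀ y ∈ B, R x y) : Good x (run T₀ B (C ++ x :: D)) := by
  have hext : ∀ l : List ℕ, (∀ y ∈ l, R x y) → Ext x l := by
    intro l hl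
    rcases hR with rfl | rfl
    · exact Or.inl hl
    · exact Or.inr hl
  induction B generalizing C with
  | nil => exact ⟨C, D, rfl, hext D hD⟩
  | cons a B ih =>
    simp only [run]
    obtain ⟨E, h1, h2⟩ := push_spec T₀ a (C ++ x :: D)
    rw [h1]
    rcases List.append_eq_append_iff.1 h2.symm with ⟨F, h3, h4⟩ | ⟨F, h3, h4⟩
    · -- `C = out ++ F`, `E = F ++ x :: D`
      rw [h4]
      have := ih (a :: F) (fun y hy => hB y (List.mem_cons_of_mem _ hy))
      exact Good.append (by simpa using this) _
    · -- `out = C ++ F`, `x :: D = F ++ E`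
      rcases F with _ | ⟨f, F⟩
      · simp only [List.nil_append] at h4
        rw [← h4]
        have := ih [a] (fun y hy => hB y (List.mem_cons_of_mem _ hy))
        exact Good.append (by simpa using this) _
      · simp only [List.cons_append, List.cons.injEq] at h4
        obtain ⟨rfl, h5⟩ := h4
        rw [h3]
        refine ⟨C, F ++ run T₀ B (a :: E), by simp, hext _ ?_⟩
        intro y hy
        rcases List.mem_append.1 hy with hy | hy
        · exact hD y (by rw [h5]; exact List.mem_append_left _ hy)
        · have := (run_perm T₀ B (a :: E)).mem_iff.1 hy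
          rcases List.mem_append.1 this with h | h
          · exact hB y (List.mem_cons_of_mem _ h)
          · rcases List.mem_cons.1 h with rfl | h
            · exact hB _ (by simp)
            · exact hD y (by rw [h5]; exact List.mem_append_right _ h)

/-- `x` is larger than everything below it in the stack and smaller than the rest of the input
(or conversely). -/
lemma good_opp (R : ℕ → ℕ → Prop) (hR : R = (· < ·) ∨ R = (· > ·)) {x : ℕ} (B C D : List ℕ)
    (hA : Avoids T₀ (x :: D)) (hD : ∀ y ∈ D, R y x) (hB : ∀ y ∈ B, R x y) :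
    Good x (run T₀ B (C ++ x :: D)) := by
  have hext : ∀ l : List ℕ, (∀ y ∈ l, R y x) → Ext x l := by
    intro l hl
    rcases hR with rfl | rfl
    · exact Or.inr hl
    · exact Or.inl hl
  induction B generalizing C with
  | nil => exact ⟨C, D, rfl, hext D hD⟩
  | cons a B ih =>
    simp only [run]
    have hax : R x a := hB a (by simp)
    have ha : Avoids T₀ (a :: x :: D) := by
      refine avoids_cons hA ?_
      rcases hR with rfl | rfl
      · right
        intro y hy
        rcases List.mem_cons.1 hy with rfl | hy
        · exact hax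
        · exact lt_trans (hD y hy) hax
      · left
        intro y hy
        rcases List.mem_cons.1 hy with rfl | hy
        · exact hax
        · exact lt_trans hax (hD y hy)
    obtain ⟨C₁, C₂, h1, h2⟩ := push_keep (C := C) ha
    rw [h2]
    have := ih (a :: C₂) (fun y hy => hB y (List.mem_cons_of_mem _ hy))
    exact Good.append (by simpa using this) _

/-- What happens on an initial part of the input. -/
lemma run_append (A st : List ℕ) (hst : Avoids T₀ st) :
    ∃ out st', (∀ B, run T₀ (A ++ B) st = out ++ run T₀ B st') ∧ (out ++ st').Perm (A ++ st) ∧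
      Avoids T₀ st' ∧ (out = [] → st' = A.reverse ++ st) := by
  induction A generalizing st with
  | nil => exact ⟨[], st, by simp, by simp, hst, by simp⟩
  | cons a A ih =>
    obtain ⟨out, st', h1, h2, h3, h5⟩ := ih (push T₀ a st).2 (push_avoids a st)
    refine ⟨(push T₀ a st).1 ++ out, st', ?_, ?_, h3, ?_⟩
    · intro B
      simp only [List.cons_append, run, h1, List.append_assoc]
    · rw [List.append_assoc]
      refine (h2.append_left _).trans ?_
      have h4 : ((push T₀ a st).1 ++ (A ++ (push T₀ a st).2)).Perm
          (A ++ ((push T₀ a st).1 ++ (push T₀ a st).2)) := by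
        rw [← List.append_assoc, ← List.append_assoc]
        exact List.Perm.append_right _ List.perm_append_comm
      refine h4.trans ?_
      refine ((push_perm T₀ a st).append_left A).trans ?_
      exact List.perm_middle
    · intro h
      obtain ⟨h6, h7⟩ := List.append_eq_nil_iff.1 h
      obtain ⟨D, h8, h9⟩ := push_spec T₀ a st
      rw [h6, List.nil_append] at h9
      rw [h5 h7, h8, h9]
      simp

lemma avoids_nil : Avoids T₀ [] := avoids_of_sublist (List.nil_sublist _) (avoids_singleton 0)

lemma good_s {p : List ℕ} (hp : p.Nodup) {x : ℕ} (h : Good x p) : Good x (s T₀ p) := by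
  obtain ⟨A, B, rfl, hB⟩ := h
  obtain ⟨out, st, h1, h2, -, -⟩ := run_append A [] avoids_nil
  unfold s
  rw [h1]
  refine Good.append ?_ _
  simp only [run]
  refine Good.append ?_ _
  obtain ⟨D, h3, h4⟩ := push_spec T₀ x st
  have hav := push_avoids x st
  rw [h3] at hav ⊢
  have hxD : x ∉ D := by
    intro hx
    have hx' : x ∈ out ++ st := List.mem_append_right _ (by rw [h4]; exact List.mem_append_right _ hx)
    have hx2 : x ∈ A := by simpa using h2.mem_iff.1 hx'
    have := List.nodup_append.1 hp
    exact this.2.2 x hx2 x (by simp) rfl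
  have hD : Ext x D := ext_of_avoids hav hxD
  rcases hD with hD | hD <;> rcases hB with hB | hB
  · simpa using good_same (· < ·) (Or.inl rfl) B [] D hD hB
  · simpa using good_opp (· > ·) (Or.inr rfl) B [] D hav hD hB
  · simpa using good_opp (· < ·) (Or.inl rfl) B [] D hav hD hB
  · simpa using good_same (· > ·) (Or.inr rfl) B [] D hD hB

/-! ### periodic points -/

lemma iter_perm (T : Set (List ℕ)) (m : ℕ) (p : List ℕ) : ((s T)^[m] p).Perm p := by
  induction m generalizing p with
  | zero => simp
  | succ m ih => rw [Function.iterate_succ_apply]; exact (ih (s T p)).trans (s_perm T p)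

lemma good_iter {p : List ℕ} (hp : p.Nodup) {x : ℕ} (h : Good x p) (m : ℕ) :
    Good x ((s T₀)^[m] p) := by
  induction m generalizing p with
  | zero => exact h
  | succ m ih =>
    rw [Function.iterate_succ_apply]
    exact ih ((s_perm T₀ p).nodup_iff.2 hp) (good_s hp h)

lemma avoids_pair (a b : ℕ) : Avoids T₀ [a, b] := by
  rw [avoids_T₀]
  intro x y z hs
  have := hs.length_le
  simp at this

/-- The bottom entry of the stack stays there until the end. -/
lemma bottom (B C : List ℕ) (h : ℕ) : ∃ L, run T₀ B (C ++ [h]) = L ++ [h] := by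
  induction B generalizing C with
  | nil => exact ⟨C, rfl⟩
  | cons a B ih =>
    obtain ⟨C₁, C₂, h1, h2⟩ := push_keep (C := C) (D := []) (avoids_pair a h)
    obtain ⟨L, hL⟩ := ih (a :: C₂)
    refine ⟨C₁ ++ L, ?_⟩
    simp only [run]
    rw [h2]
    simp only [List.cons_append] at hL
    rw [List.append_assoc, ← hL]

lemma s_last (h : ℕ) (q : List ℕ) : ∃ L, s T₀ (h :: q) = L ++ [h] := by
  obtain ⟨L, hL⟩ := bottom q [] h
  exact ⟨L, by simpa [s, run, push] using hL⟩

/-- `p` is a periodic point. -/
def Per (p : List ℕ) : Prop := ∃ m ≥ 1, (s T₀)^[m] p = p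

lemma Per.s {p : List ℕ} (h : Per p) : Per (s T₀ p) := by
  obtain ⟨m, hm, h⟩ := h
  refine ⟨m, hm, ?_⟩
  rw [← Function.iterate_succ_apply (PeriodicPoints231213.s T₀) m p,
    Function.iterate_succ_apply' (PeriodicPoints231213.s T₀) m p, h]

lemma Per.exists {p : List ℕ} (h : Per p) :
    ∃ p', Per p' ∧ PeriodicPoints231213.s T₀ p' = p ∧ p'.Perm p := by
  obtain ⟨m, hm, h⟩ := h
  obtain ⟨m, rfl⟩ : ∃ k, m = k + 1 := ⟨m - 1, by omega⟩
  refine ⟨(PeriodicPoints231213.s T₀)^[m] p, ⟨m + 1, by omega, ?_⟩, ?_, iter_perm T₀ m p⟩
  · rw [← Function.iterate_add_apply, show m + 1 + m = m + (m + 1) by ring,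
      Function.iterate_add_apply, h]
  · rw [← Function.iterate_succ_apply' (PeriodicPoints231213.s T₀) m p, h]

lemma head_ext {h : ℕ} {q : List ℕ} (hn : (h :: q).Nodup) (hp : Per (h :: q)) : Ext h q := by
  obtain ⟨m, hm, hm'⟩ := hp
  obtain ⟨m, rfl⟩ : ∃ k, m = k + 1 := ⟨m - 1, by omega⟩
  obtain ⟨L, hL⟩ := s_last h q
  have h1 : Good h (s T₀ (h :: q)) := ⟨L, [], hL, Or.inl (by simp)⟩
  have h2 := good_iter ((s_perm T₀ _).nodup_iff.2 hn) h1 m
  rw [← Function.iterate_succ_apply, hm'] at h2
  obtain ⟨l₁, l₂, h3, h4⟩ := h2
  rcases l₁ with _ | ⟨c, l₁⟩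
  · simp only [List.nil_append, List.cons.injEq, true_and] at h3
    rw [h3]
    exact h4
  · simp only [List.cons_append, List.cons.injEq] at h3
    obtain ⟨rfl, h3⟩ := h3
    rw [h3] at hn
    simp at hn

lemma last_ext {z : ℕ} {q : List ℕ} (hn : (q ++ [z]).Nodup) (hp : Per (q ++ [z])) : Ext z q := by
  obtain ⟨p', h1, h2, h3⟩ := hp.exists
  rcases p' with _ | ⟨h, r⟩
  · have := h3.length_eq
    simp at this
  · obtain ⟨L, hL⟩ := s_last h r
    rw [h2] at hL
    obtain ⟨rfl, h4⟩ := List.append_inj' hL rfl
    obtain rfl : z = h := by simpa using h4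
    have h5 := head_ext (h3.nodup_iff.2 hn) h1
    have h6 : r.Perm q := by
      have h7 : (z :: r).Perm (z :: q) := h3.trans (by simpa using List.perm_append_comm (l₁ := q) (l₂ := [z]))
      exact h7.cons_inv
    rcases h5 with h5 | h5
    · exact Or.inl fun y hy => h5 y (h6.mem_iff.2 hy)
    · exact Or.inr fun y hy => h5 y (h6.mem_iff.2 hy)

lemma pairwise_of_avoids (R : ℕ → ℕ → Prop) (hR : R = (· < ·) ∨ R = (· > ·)) {h : ℕ}
    (l : List ℕ) (hn : (l ++ [h]).Nodup) (hl : ∀ y ∈ l, R h y) (hav : Avoids T₀ (l ++ [h])) :
    (l ++ [h]).Pairwise (fun a b => R b a) := by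
  induction l with
  | nil => simp
  | cons a l ih =>
    simp only [List.cons_append] at hn hav ⊢
    have hn' := List.nodup_cons.1 hn
    have hext := ext_of_avoids hav hn'.1
    refine List.pairwise_cons.2 ⟨?_, ih hn'.2 (fun y hy => hl y (List.mem_cons_of_mem _ hy))
      (avoids_of_sublist (List.sublist_cons_self _ _) hav)⟩
    have hha : R h a := hl a (by simp)
    rcases hR with rfl | rfl
    · rcases hext with he | he
      · exact absurd (he h (by simp)) (not_lt_of_gt hha)
      · exact he
    · rcases hext with he | he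
      · exact he
      · exact absurd (he h (by simp)) (not_lt_of_gt hha)

lemma pairwise_of_per (R : ℕ → ℕ → Prop) (hR : R = (· < ·) ∨ R = (· > ·)) {h : ℕ} {q : List ℕ}
    (hn : (h :: q).Nodup) (hp : Per (h :: q)) (hq : ∀ y ∈ q, R h y) : (h :: q).Pairwise R := by
  rcases List.eq_nil_or_concat q with rfl | ⟨q₀, z, rfl⟩
  · simp
  rw [List.concat_eq_append] at hn hp hq ⊢
  have hasymm : ∀ a b, R a b → ¬ R b a := by
    intro a b
    rcases hR with rfl | rfl
    · intro h1 h2
      exact lt_asymm h1 h2
    · intro h1 h2
      exact lt_asymm h1 h2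
  have hextR : ∀ a l, Ext a l → (∀ y ∈ l, R a y) ∨ ∀ y ∈ l, R y a := by
    intro a l hl
    rcases hR with rfl | rfl
    · exact hl
    · exact hl.symm
  have hRext : ∀ a l, (∀ y ∈ l, R y a) → Ext a l := by
    intro a l hl
    rcases hR with rfl | rfl
    · exact Or.inr hl
    · exact Or.inl hl
  have hz : ∀ y ∈ h :: q₀, R y z := by
    have h1 : Ext z (h :: q₀) := last_ext (by simpa using hn) (by simpa using hp)
    rcases hextR z _ h1 with h2 | h2
    · exact absurd (h2 h (by simp)) (hasymm _ _ (hq z (by simp)))
    · exact h2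
  obtain ⟨out, st, h1, h2, h3, h4⟩ := run_append (h :: q₀) [] avoids_nil
  have hmem : ∀ y, y ∈ out ∨ y ∈ st ↔ y = h ∨ y ∈ q₀ := by
    intro y
    have := h2.mem_iff (a := y)
    simpa using this
  have hzst : Avoids T₀ (z :: st) :=
    avoids_cons h3 (hRext z st fun y hy => hz y (by simpa using (hmem y).1 (Or.inr hy)))
  have hpush : push T₀ z st = ([], z :: st) := by
    rcases st with _ | ⟨b, st⟩
    · rfl
    · unfold push
      rw [if_pos hzst]
  have hs : s T₀ (h :: (q₀ ++ [z])) = out ++ z :: st := by
    have := h1 [z]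
    rw [List.cons_append] at this
    unfold s
    rw [this]
    simp [run, hpush]
  have hper := hp.s
  rw [hs] at hper
  have hnd : (out ++ z :: st).Nodup := by
    rw [← hs]
    exact (s_perm T₀ _).nodup_iff.2 hn
  rcases out with _ | ⟨o, out⟩
  · have h5 := h4 rfl
    rw [List.append_nil] at h5
    have h6 : z :: st = (z :: q₀.reverse) ++ [h] := by rw [h5]; simp
    rw [h6] at hzst hnd
    have h7 := pairwise_of_avoids R hR (z :: q₀.reverse) (by simpa using hnd) (by
      intro y hy
      apply hq
      simpa [or_comm] using hy) hzst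
    have h8 : (z :: q₀.reverse) ++ [h] = (h :: (q₀ ++ [z])).reverse := by simp
    rw [h8, List.pairwise_reverse] at h7
    exact h7
  · exfalso
    simp only [List.cons_append] at hper hnd hs
    have h5 := head_ext hnd hper
    have hoz : R o z := hz o (by simpa using (hmem o).1 (Or.inl (by simp)))
    have h6 : ∀ y ∈ out ++ z :: st, R o y := by
      rcases hextR o _ h5 with h6 | h6
      · exact h6
      · exact absurd (h6 z (by simp)) (hasymm _ _ hoz)
    have hoh : o ≠ h := by
      rintro rfl
      obtain ⟨L, hL⟩ := s_last o (q₀ ++ [z])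
      rw [hs] at hL
      rcases L with _ | ⟨c, L⟩
      · simp at hL
      · simp only [List.cons_append, List.cons.injEq] at hL
        rw [hL.2] at hnd
        simp at hnd
    have hmo := (hmem o).1 (Or.inl (by simp))
    have hoq : R h o := hq o (by
      rcases hmo with h' | h'
      · exact absurd h' hoh
      · exact List.mem_append_left _ h')
    have hh : h ∈ out ++ z :: st := by
      have := (hmem h).2 (Or.inl rfl)
      rcases this with h' | h'
      · rcases List.mem_cons.1 h' with h'' | h''
        · exact absurd h''.symm hoh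
        · exact List.mem_append_left _ h''
      · exact List.mem_append_right _ (List.mem_cons_of_mem _ h')
    exact hasymm _ _ hoq (h6 h hh)

/-- If no entry has to be popped then the output is the reverse of the input. -/
lemma run_reverse (B st : List ℕ) (h : Avoids T₀ (B.reverse ++ st)) :
    run T₀ B st = B.reverse ++ st := by
  induction B generalizing st with
  | nil => simp [run]
  | cons a B ih =>
    have h' : Avoids T₀ (B.reverse ++ a :: st) := by simpa using h
    have ha : Avoids T₀ (a :: st) := avoids_of_sublist (List.sublist_append_right _ _) h'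
    have hpush : push T₀ a st = ([], a :: st) := by
      rcases st with _ | ⟨b, st⟩
      · rfl
      · unfold push
        rw [if_pos ha]
    simp only [run]
    rw [hpush]
    simpa using ih (a :: st) h'

lemma avoids_sorted {l : List ℕ} (h : l.Pairwise (· < ·) ∨ l.Pairwise (· > ·)) :
    Avoids T₀ l := by
  rw [avoids_T₀]
  intro x y z hs
  rcases h with h | h
  · have := h.sublist hs
    simp at this
    omega
  · have := h.sublist hs
    simp at this
    omega

lemma s_reverse {l : List ℕ} (h : l.Pairwise (· < ·) ∨ l.Pairwise (· > ·)) :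
    s T₀ l = l.reverse := by
  have := run_reverse l [] (by
    rw [List.append_nil]
    apply avoids_sorted
    rw [List.pairwise_reverse, List.pairwise_reverse]
    rcases h with h | h
    · exact Or.inr h
    · exact Or.inl h)
  simpa [s] using this

/-- For every `n` the only periodic points of `s_T`, `T = {231, 213}`, among the permutations of
`1, ..., n` are the identity and its reverse. -/
theorem result (n : ℕ) (p : List ℕ) (hp : p.Perm (List.range' 1 n)) :
    (∃ m ≥ 1, (s T₀)^[m] p = p) ↔
      (p = List.range' 1 n ∨ p = (List.range' 1 n).reverse) := by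
  have hsort : (List.range' 1 n).Pairwise (· < ·) := List.pairwise_lt_range' _ (by norm_num)
  constructor
  · intro h
    have hn : p.Nodup := hp.nodup_iff.2 (List.nodup_range' _ (by norm_num))
    have key : p.Pairwise (· < ·) ∨ p.Pairwise (· > ·) := by
      rcases p with _ | ⟨a, q⟩
      · simp
      · rcases head_ext hn h with h1 | h1
        · exact Or.inl (pairwise_of_per (· < ·) (Or.inl rfl) hn h h1)
        · exact Or.inr (pairwise_of_per (· > ·) (Or.inr rfl) hn h h1)
    rcases key with h1 | h1
    · left
      exact List.Perm.eq_of_pairwise (fun a b _ _ h2 h3 => absurd h3 (lt_asymm h2)) h1 hsort hp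
    · right
      have h2 : p.reverse = List.range' 1 n :=
        List.Perm.eq_of_pairwise (fun a b _ _ h2 h3 => absurd h3 (lt_asymm h2))
          (List.pairwise_reverse.2 h1) hsort (p.reverse_perm.trans hp)
      rw [← h2, List.reverse_reverse]
  · rintro (rfl | rfl)
    · refine ⟨2, by norm_num, ?_⟩
      rw [Function.iterate_succ_apply, Function.iterate_one, s_reverse (Or.inl hsort),
        s_reverse (Or.inr (List.pairwise_reverse.2 hsort)), List.reverse_reverse]
    · refine ⟨2, by norm_num, ?_⟩
      rw [Function.iterate_succ_apply, Function.iterate_one,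
        s_reverse (Or.inr (List.pairwise_reverse.2 hsort)), List.reverse_reverse,
        s_reverse (Or.inl hsort)]

end Pool.Agent.Results.MP_cfa423_co.PeriodicPoints231213
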